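import Pool.Agent.K1H98.NR.Core
import Pool.Agent.K1H76.MW.Main

/-!
# Odd zeta values without near linear relations, at every scale
-/

set_option autoImplicit false

namespace Pool.Agent.K1H98.NR

open Finset

lemma card_odd (b s : ℕ) : ((range (s + 1)).filter fun j => b < j ∧ Odd j).card ≤ s / 2 + 1 := by
  calc ((range (s + 1)).filter fun j => b < j ∧ Odd j).card ≤ (range (s / 2 + 1)).card := by
        apply card_le_card_of_injOn (fun j => j / 2)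
        · intro j hj
          have hj' := mem_filter.1 (mem_coe.1 hj)
          have h1 := mem_range.1 hj'.1
          simp only [coe_range, Set.mem_Iio]
          omega
        · intro i hi j hj hij
          obtain ⟨x, hx⟩ := (mem_filter.1 (mem_coe.1 hi)).2.2
          obtain ⟨y, hy⟩ := (mem_filter.1 (mem_coe.1 hj)).2.2
          simp only at hij
          omega
    _ = s / 2 + 1 := card_range _

theorem main (b K s S v : ℕ) (hK : 1 ≤ K) (hS : 1 ≤ S)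
    (hs1 : (2 : ℝ) ^ (66 * (v + S)) * ((b : ℝ) + 1) * ((K : ℝ) * S) * Real.log ((K : ℝ) * S + 1) ≤ (s : ℝ))
    (hs2 : (2 : ℝ) ^ (132 * (v + S)) * ((b : ℝ) + 1) * ((K : ℝ) * S) ^ 3 * Real.log ((K : ℝ) * S + 1) ≤ (s : ℝ) ^ 2) :
    ∃ X0 : ℕ, ∀ X ≥ X0, ∀ t : Fin v → ℝ, ∃ J : Fin K → Finset ℕ, (∀ i i', i ≠ i' → Disjoint (J i) (J i')) ∧
      ∀ i, (J i).card = S ∧ (∀ j ∈ J i, b < j ∧ j ≤ s ∧ Odd j) ∧
        ∀ (a : ℕ → ℤ) (e : Fin v → ℤ) (e0 : ℤ), (∀ j, |a j| ≤ X) → (∀ l, |e l| ≤ X) → (∃ j ∈ J i, a j ≠ 0) →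
          1 / (X : ℝ) ^ (s * (v + S + 1) ^ 2) ≤
            |∑ j ∈ J i, (a j : ℝ) * (∑' n : ℕ, 1 / ((n : ℝ) + 1) ^ j) + ∑ l, (e l : ℝ) * t l + e0| := by
  classical
  have hKS : 1 ≤ K * S := Nat.mul_pos hK hS
  obtain ⟨q0, hq0⟩ := (Pool.Agent.K1H76.MW.main b (K * S) s (v + S) hKS (by omega) (by push_cast; exact hs1)
    (by push_cast; exact hs2)).2
  -- `s` is large
  have hs6 : 6 ≤ s := by
    have h1 : (1 : ℝ) ≤ (K : ℝ) * S := by exact_mod_cast hKS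
    have h2 : (1 / 2 : ℝ) ≤ Real.log ((K : ℝ) * S + 1) := by
      have : Real.log 2 ≤ Real.log ((K : ℝ) * S + 1) := Real.log_le_log (by norm_num) (by linarith)
      have := Real.log_two_gt_d9
      linarith
    have h3 : (2 : ℝ) ^ 66 ≤ (2 : ℝ) ^ (66 * (v + S)) := pow_le_pow_right₀ (by norm_num) (by omega)
    have h4 : (1 : ℝ) ≤ (b : ℝ) + 1 := by
      have : (0 : ℝ) ≤ b := by positivity
      linarith
    have h5 : (2 : ℝ) ^ 66 * 1 * 1 * (1 / 2) ≤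
        (2 : ℝ) ^ (66 * (v + S)) * ((b : ℝ) + 1) * ((K : ℝ) * S) * Real.log ((K : ℝ) * S + 1) := by
      gcongr
    have h6 : (6 : ℝ) ≤ s := by
      refine le_trans ?_ (h5.trans hs1)
      norm_num
    exact_mod_cast h6
  obtain ⟨A, hA⟩ : ∃ A : Finset ℕ, A = (range (s + 1)).filter fun j => b < j ∧ Odd j := ⟨_, rfl⟩
  have hAc : A.card + 2 ≤ s := by
    have := card_odd b s
    rw [← hA] at this
    omega
  refine ⟨max q0 (v + S + 1), fun X hX t => ?_⟩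
  have hX0 : q0 ≤ X := le_trans (le_max_left _ _) hX
  have hX1 : v + S + 1 ≤ X := le_trans (le_max_right _ _) hX
  have H : ∀ q ≥ q0, K * S ≤ Set.ncard {j : ℕ | j ∈ A ∧ ∀ p : ℤ, (q : ℝ) ^ (-(1 / ((v + S : ℕ) : ℝ))) ≤
      |(q : ℝ) * (∑' n : ℕ, 1 / ((n : ℝ) + 1) ^ j) - p|} := by
    intro q hq
    refine (hq0 q hq).trans (Set.ncard_le_ncard ?_ ?_)
    · rintro j ⟨g1, g2, g3, g4⟩
      refine ⟨?_, g4⟩
      rw [hA, mem_filter, mem_range]
      exact ⟨by omega, g1, g3⟩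
    · exact A.finite_toSet.subset fun j hj => hj.1
  obtain ⟨J, hJd, hJ⟩ := many (A := A) (K := K) (S := S)
    (P := Good (fun j => ∑' n : ℕ, 1 / ((n : ℝ) + 1) ^ j) t X (s * (v + S + 1) ^ 2)) (good_empty _ _ _ _)
    (fun J U _ hJ hJS hU => step (n := v + S) A hAc t hX0 hX1 H J (by omega) hJ U hU)
  refine ⟨J, hJd, fun i => ⟨(hJ i).2.1, fun j hj => ?_, (hJ i).2.2⟩⟩
  have := (hJ i).1 hj
  rw [hA, mem_filter, mem_range] at this
  exact ⟨this.2.1, by omega, this.2.2⟩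

end Pool.Agent.K1H98.NR
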