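import Pool.Agent.R355.Dirichlet

/-!
# Greedy choice of sets of real numbers without near linear relations
-/

set_option autoImplicit false

namespace Pool.Agent.K1H98.NR

open Finset

/-- the numbers `z j`, `j` in `J`, have no near linear relation of height at most `X` modulo the numbers `t l` and the
integers -/
def Good (z : ℕ → ℝ) {v : ℕ} (t : Fin v → ℝ) (X w : ℕ) (J : Finset ℕ) : Prop :=
  ∀ (a : ℕ → ℤ) (e : Fin v → ℤ) (e0 : ℤ), (∀ j, |a j| ≤ X) → (∀ l, |e l| ≤ X) → (∃ j ∈ J, a j ≠ 0) →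
    1 / (X : ℝ) ^ w ≤ |∑ j ∈ J, (a j : ℝ) * z j + ∑ l, (e l : ℝ) * t l + e0|

lemma good_empty (z : ℕ → ℝ) {v : ℕ} (t : Fin v → ℝ) (X w : ℕ) : Good z t X w ∅ := by
  intro a e e0 _ _ h
  simp at h

/-- the final comparison of sizes -/
lemma size {n X M q : ℕ} (hn : 1 ≤ n) (hXn : n + 1 ≤ X) {R : ℝ} (hR0 : 0 ≤ R)
    (hR : R ≤ n * (X : ℝ) ^ (M + 1) / (X : ℝ) ^ ((M + 2) * (n + 1))) (hq1 : 1 ≤ q)
    (hq : (q : ℝ) ≤ (X : ℝ) ^ (M + 1) * ((X : ℝ) ^ ((M + 2) * (n + 1))) ^ (n - 1)) :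
    R < (q : ℝ) ^ (-(1 / (n : ℝ))) := by
  obtain ⟨m, rfl⟩ : ∃ m, n = m + 1 := ⟨n - 1, by omega⟩
  have hX0 : (0 : ℝ) < X := by exact_mod_cast (by omega : 0 < X)
  have hq0 : (0 : ℝ) < q := by exact_mod_cast hq1
  have hn0 : ((m + 1 : ℕ) : ℝ) ≠ 0 := by positivity
  obtain ⟨Y, hY⟩ : ∃ Y : ℝ, Y = (X : ℝ) ^ ((M + 2) * (m + 1 + 1)) := ⟨_, rfl⟩
  have hY0 : 0 < Y := by rw [hY]; positivity
  rw [← hY] at hR hq
  have hm : m + 1 - 1 = m := rfl
  rw [hm] at hq
  have g8 : ((q : ℝ) ^ (-(1 / ((m + 1 : ℕ) : ℝ)))) ^ (m + 1) = (q : ℝ)⁻¹ := by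
    rw [← Real.rpow_natCast, ← Real.rpow_mul hq0.le, neg_mul, one_div, inv_mul_cancel₀ hn0, Real.rpow_neg_one]
  by_contra hcon
  push Not at hcon
  have g9 := pow_le_pow_left₀ (by positivity) hcon (m + 1)
  rw [g8] at g9
  have g10 : 1 ≤ R ^ (m + 1) * q := by
    have := mul_le_mul_of_nonneg_right g9 hq0.le
    rwa [inv_mul_cancel₀ hq0.ne'] at this
  have g11 : R ^ (m + 1) * q ≤ (((m + 1 : ℕ) : ℝ) * (X : ℝ) ^ (M + 1) / Y) ^ (m + 1) * ((X : ℝ) ^ (M + 1) * Y ^ m) :=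
    mul_le_mul (pow_le_pow_left₀ hR0 hR _) hq hq0.le (by positivity)
  have g12 : (((m + 1 : ℕ) : ℝ) * (X : ℝ) ^ (M + 1) / Y) ^ (m + 1) * ((X : ℝ) ^ (M + 1) * Y ^ m) =
      ((m + 1 : ℕ) : ℝ) ^ (m + 1) * ((X : ℝ) ^ ((M + 1) * (m + 2)) / Y) := by
    rw [div_pow, mul_pow, pow_succ Y m, ← pow_mul]
    have : (X : ℝ) ^ ((M + 1) * (m + 2)) = (X : ℝ) ^ ((M + 1) * (m + 1)) * (X : ℝ) ^ (M + 1) := by
      rw [← pow_add]; congr 1
    rw [this]
    field_simp
  have g13 : (X : ℝ) ^ ((M + 1) * (m + 2)) / Y = 1 / (X : ℝ) ^ (m + 2) := by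
    rw [hY, div_eq_div_iff (by positivity) (by positivity), one_mul, ← pow_add]
    congr 1
    ring
  have g14 : ((m + 1 : ℕ) : ℝ) ^ (m + 1) * (1 / (X : ℝ) ^ (m + 2)) < 1 := by
    rw [mul_one_div, div_lt_one (by positivity)]
    have h1 : ((m + 1 : ℕ) : ℝ) ^ (m + 1) ≤ (X : ℝ) ^ (m + 1) :=
      pow_le_pow_left₀ (by positivity) (by exact_mod_cast (by omega : m + 1 ≤ X)) _
    have h2 : (X : ℝ) ^ (m + 1) < (X : ℝ) ^ (m + 2) := by
      apply pow_lt_pow_right₀ _ (by omega)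
      exact_mod_cast (by omega : 1 < X)
    linarith
  rw [g12, g13] at g11
  linarith

/-- **The greedy step.** -/
lemma step {z : ℕ → ℝ} {v n s K q0 X : ℕ} (A : Finset ℕ) (hA : A.card + 2 ≤ s) (t : Fin v → ℝ)
    (hX0 : q0 ≤ X) (hXn : n + 1 ≤ X)
    (H : ∀ q ≥ q0, K ≤ Set.ncard {j : ℕ | j ∈ A ∧ ∀ p : ℤ, (q : ℝ) ^ (-(1 / (n : ℝ))) ≤ |(q : ℝ) * z j - p|})
    (J : Finset ℕ) (hJn : J.card + v + 1 ≤ n) (hJ : Good z t X (s * (n + 1) ^ 2) J) (U : Finset ℕ)
    (hU : (U ∪ J).card < K) :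
    ∃ j ∈ A, j ∉ U ∧ j ∉ J ∧ Good z t X (s * (n + 1) ^ 2) (insert j J) := by
  classical
  obtain ⟨w, hw⟩ : ∃ w, w = s * (n + 1) ^ 2 := ⟨_, rfl⟩
  rw [← hw] at hJ ⊢
  by_contra hcon
  push Not at hcon
  obtain ⟨B, hB⟩ : ∃ B, B = A \ (U ∪ J) := ⟨_, rfl⟩
  have hXp : 0 < X := by omega
  have hXr : (0 : ℝ) < X := by exact_mod_cast hXp
  have hX1 : (1 : ℝ) ≤ X := by exact_mod_cast hXp
  have hrel : ∀ j, j ∈ B → ∃ (a : ℕ → ℤ) (e : Fin v → ℤ) (e0 : ℤ), (∀ i, |a i| ≤ X) ∧ (∀ l, |e l| ≤ X) ∧ a j ≠ 0 ∧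
      |(a j : ℝ) * z j + (∑ i ∈ J, (a i : ℝ) * z i + ∑ l, (e l : ℝ) * t l + e0)| < 1 / (X : ℝ) ^ w := by
    intro j hj
    rw [hB, mem_sdiff, mem_union, not_or] at hj
    have h1 := hcon j hj.1 hj.2.1 hj.2.2
    unfold Good at h1
    push Not at h1
    obtain ⟨a, e, e0, ha, he, ⟨i, hi, hai⟩, hf⟩ := h1
    rw [sum_insert hj.2.2] at hf
    have hf' : |(a j : ℝ) * z j + (∑ i ∈ J, (a i : ℝ) * z i + ∑ l, (e l : ℝ) * t l + e0)| < 1 / (X : ℝ) ^ w := by
      rw [show (a j : ℝ) * z j + (∑ i ∈ J, (a i : ℝ) * z i + ∑ l, (e l : ℝ) * t l + e0) =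
        (a j : ℝ) * z j + ∑ i ∈ J, (a i : ℝ) * z i + ∑ l, (e l : ℝ) * t l + e0 from by ring]
      exact hf
    refine ⟨a, e, e0, ha, he, fun h0 => ?_, hf'⟩
    have hiJ : i ∈ J := by
      rcases mem_insert.1 hi with rfl | h
      · exact absurd h0 hai
      · exact h
    have h2 := hJ a e e0 ha he ⟨i, hiJ, hai⟩
    rw [h0, Int.cast_zero, zero_mul, zero_add] at hf'
    exact absurd hf' (not_lt.2 h2)
  choose! a e e0 ha he haj hf using hrel
  -- the common denominator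
  obtain ⟨Q, hQ⟩ : ∃ Q : ℕ, Q = ∏ j ∈ B, (a j j).natAbs := ⟨_, rfl⟩
  have hQ1 : 1 ≤ Q := by
    rw [hQ]
    exact Finset.prod_pos fun j hj => Int.natAbs_pos.2 (haj j hj)
  have hBA : B.card ≤ A.card := by rw [hB]; exact card_le_card sdiff_subset
  have hnat : ∀ j ∈ B, ((a j j).natAbs : ℝ) ≤ X := by
    intro j hj
    have := ha j hj j
    have h2 : (((a j j).natAbs : ℤ)) ≤ X := by rw [Int.natCast_natAbs]; exact this
    exact_mod_cast h2
  have hQX : (Q : ℝ) ≤ (X : ℝ) ^ A.card := by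
    rw [hQ]
    push_cast
    calc ∏ j ∈ B, ((a j j).natAbs : ℝ) ≤ ∏ j ∈ B, (X : ℝ) :=
          prod_le_prod (fun _ _ => by positivity) fun j hj => hnat j hj
      _ = (X : ℝ) ^ B.card := by rw [prod_const]
      _ ≤ (X : ℝ) ^ A.card := pow_le_pow_right₀ hX1 hBA
  have hc : ∀ j ∈ B, ∃ c : ℤ, (Q : ℤ) = a j j * c ∧ |(c : ℝ)| * X ≤ (X : ℝ) ^ A.card := by
    intro j hj
    have h1 : Q = (a j j).natAbs * ∏ i ∈ B.erase j, (a i i).natAbs := by
      rw [hQ]
      exact (Finset.mul_prod_erase B (fun i => (a i i).natAbs) hj).symm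
    refine ⟨(a j j).sign * ((∏ i ∈ B.erase j, (a i i).natAbs : ℕ) : ℤ), ?_, ?_⟩
    · rw [h1]
      push_cast [Int.natCast_natAbs]
      rw [← mul_assoc, Int.mul_sign_self, Int.natCast_natAbs]
    · have h2 : |(((a j j).sign * ((∏ i ∈ B.erase j, (a i i).natAbs : ℕ) : ℤ) : ℤ) : ℝ)| ≤
          ∏ i ∈ B.erase j, ((a i i).natAbs : ℝ) := by
        rw [Int.cast_mul, abs_mul]
        have h3 : |(((a j j).sign : ℤ) : ℝ)| ≤ 1 := by
          rw [← Int.cast_abs]
          exact_mod_cast (by rcases Int.sign_trichotomy (a j j) with h | h | h <;> simp [h])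
        have h4 : |(((∏ i ∈ B.erase j, (a i i).natAbs : ℕ) : ℤ) : ℝ)| = ∏ i ∈ B.erase j, ((a i i).natAbs : ℝ) := by
          rw [abs_of_nonneg (by positivity), Int.cast_natCast, Nat.cast_prod]
        rw [h4]
        have h5 : (0 : ℝ) ≤ ∏ i ∈ B.erase j, ((a i i).natAbs : ℝ) := prod_nonneg fun _ _ => by positivity
        nlinarith
      have h3 : ∏ i ∈ B.erase j, ((a i i).natAbs : ℝ) ≤ (X : ℝ) ^ (B.card - 1) := by
        calc ∏ i ∈ B.erase j, ((a i i).natAbs : ℝ) ≤ ∏ i ∈ B.erase j, (X : ℝ) :=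
              prod_le_prod (fun _ _ => by positivity) fun i hi => hnat i (mem_of_mem_erase hi)
          _ = (X : ℝ) ^ (B.card - 1) := by rw [prod_const, card_erase_of_mem hj]
      calc |(((a j j).sign * ((∏ i ∈ B.erase j, (a i i).natAbs : ℕ) : ℤ) : ℤ) : ℝ)| * X
          ≤ (X : ℝ) ^ (B.card - 1) * X := mul_le_mul_of_nonneg_right (h2.trans h3) hXr.le
        _ = (X : ℝ) ^ B.card := by
            rw [← pow_succ]
            congr 1
            have : 0 < B.card := card_pos.2 ⟨j, hj⟩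
            omega
        _ ≤ (X : ℝ) ^ A.card := pow_le_pow_right₀ hX1 hBA
  -- Dirichlet's theorem
  obtain ⟨y, hy⟩ : ∃ y, y = (A.card + 2) * (n + 1) := ⟨_, rfl⟩
  have hY1 : 1 ≤ X ^ y := Nat.one_le_pow _ _ hXp
  let ev := Fintype.equivFin (J ⊕ Fin v)
  obtain ⟨r, hr1, hr2, hr⟩ := Pool.Agent.R355.dirichlet
    (fun i => Sum.elim (fun j : J => z j) t (ev.symm i)) hY1
  choose W hW using hr
  have hWJ : ∀ i : J, |(r : ℝ) * z i - W (ev (Sum.inl i))| ≤ 1 / (X : ℝ) ^ y := by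
    intro i
    have := (hW (ev (Sum.inl i))).le
    rw [Equiv.symm_apply_apply, Sum.elim_inl] at this
    push_cast at this
    exact this
  have hWT : ∀ l : Fin v, |(r : ℝ) * t l - W (ev (Sum.inr l))| ≤ 1 / (X : ℝ) ^ y := by
    intro l
    have := (hW (ev (Sum.inr l))).le
    rw [Equiv.symm_apply_apply, Sum.elim_inr] at this
    push_cast at this
    exact this
  have hcard : Fintype.card (J ⊕ Fin v) + 1 ≤ n := by
    rw [Fintype.card_sum, Fintype.card_coe, Fintype.card_fin]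
    omega
  have hr2' : (r : ℝ) ≤ ((X : ℝ) ^ y) ^ (n - 1) := by
    calc (r : ℝ) ≤ ((X ^ y : ℕ) : ℝ) ^ Fintype.card (J ⊕ Fin v) := by exact_mod_cast hr2
      _ ≤ ((X ^ y : ℕ) : ℝ) ^ (n - 1) := pow_le_pow_right₀ (by exact_mod_cast hY1) (by omega)
      _ = ((X : ℝ) ^ y) ^ (n - 1) := by push_cast; rfl
  obtain ⟨q, hq⟩ : ∃ q : ℕ, q = Q * r * X := ⟨_, rfl⟩
  have hqX : X ≤ q := by
    rw [hq]
    have : 1 * 1 * X ≤ Q * r * X := Nat.mul_le_mul_right X (Nat.mul_le_mul hQ1 hr1)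
    omega
  have hqle : (q : ℝ) ≤ (X : ℝ) ^ (A.card + 1) * ((X : ℝ) ^ y) ^ (n - 1) := by
    rw [hq]
    push_cast
    calc (Q : ℝ) * r * X ≤ (X : ℝ) ^ A.card * ((X : ℝ) ^ y) ^ (n - 1) * X := by
          apply mul_le_mul_of_nonneg_right _ hXr.le
          exact mul_le_mul hQX hr2' (by positivity) (by positivity)
      _ = _ := by ring
  -- all the numbers are close to fractions with denominator `q`
  have happ : ∀ j ∈ B, ∃ p : ℤ, |(q : ℝ) * z j - p| < (q : ℝ) ^ (-(1 / (n : ℝ))) := by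
    intro j hj
    obtain ⟨c, hc1, hc2⟩ := hc j hj
    refine ⟨-(c * X * (∑ i : J, a j i * W (ev (Sum.inl i)) + ∑ l, e j l * W (ev (Sum.inr l)) + r * e0 j)), ?_⟩
    have e1 : (q : ℝ) * z j - ((-(c * X * (∑ i : J, a j i * W (ev (Sum.inl i)) + ∑ l, e j l * W (ev (Sum.inr l)) +
        r * e0 j)) : ℤ) : ℝ) =
        r * (c * X) * ((a j j : ℝ) * z j + (∑ i ∈ J, (a j i : ℝ) * z i + ∑ l, (e j l : ℝ) * t l + e0 j)) -
          c * X * (∑ i : J, (a j i : ℝ) * (r * z i - W (ev (Sum.inl i))) +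
            ∑ l, (e j l : ℝ) * (r * t l - W (ev (Sum.inr l)))) := by
      have e2 : (q : ℝ) = (a j j * c) * r * X := by
        rw [hq]
        push_cast
        have : (Q : ℝ) = ((Q : ℤ) : ℝ) := by push_cast; rfl
        rw [this, hc1]
        push_cast
        ring
      have e3 : ∑ i : J, (a j i : ℝ) * (r * z i - W (ev (Sum.inl i))) =
          r * ∑ i ∈ J, (a j i : ℝ) * z i - ∑ i : J, (a j i : ℝ) * W (ev (Sum.inl i)) := by
        rw [← Finset.sum_coe_sort J, mul_sum, ← sum_sub_distrib]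
        exact sum_congr rfl fun i _ => by ring
      have e4 : ∑ l, (e j l : ℝ) * (r * t l - W (ev (Sum.inr l))) =
          r * ∑ l, (e j l : ℝ) * t l - ∑ l, (e j l : ℝ) * W (ev (Sum.inr l)) := by
        rw [mul_sum, ← sum_sub_distrib]
        exact sum_congr rfl fun i _ => by ring
      rw [e2, e3, e4]
      push_cast
      ring
    rw [e1]
    have hcX : |(c : ℝ) * X| ≤ (X : ℝ) ^ A.card := by
      rw [abs_mul, abs_of_pos hXr]
      exact hc2
    have b1 : |(r : ℝ) * (c * X) * ((a j j : ℝ) * z j + (∑ i ∈ J, (a j i : ℝ) * z i + ∑ l, (e j l : ℝ) * t l + e0 j))| ≤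
        (X : ℝ) ^ (A.card + 1) / (X : ℝ) ^ y := by
      rw [abs_mul, abs_mul, abs_of_nonneg (by positivity : (0 : ℝ) ≤ r)]
      calc (r : ℝ) * |(c : ℝ) * X| * |(a j j : ℝ) * z j + (∑ i ∈ J, (a j i : ℝ) * z i + ∑ l, (e j l : ℝ) * t l + e0 j)|
          ≤ (((X : ℝ) ^ y) ^ (n - 1) * (X : ℝ) ^ A.card) * (1 / (X : ℝ) ^ w) := by
            apply mul_le_mul _ (hf j hj).le (abs_nonneg _) (by positivity)
            exact mul_le_mul hr2' hcX (abs_nonneg _) (by positivity)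
        _ ≤ (X : ℝ) ^ (A.card + 1) / (X : ℝ) ^ y := by
            rw [mul_one_div, div_le_div_iff₀ (by positivity) (by positivity), ← pow_mul, ← pow_add, ← pow_add, ← pow_add]
            apply pow_le_pow_right₀ hX1
            obtain ⟨m, rfl⟩ : ∃ m, n = m + 1 := ⟨n - 1, by omega⟩
            rw [hy, hw]
            have : m + 1 - 1 = m := rfl
            rw [this]
            nlinarith [Nat.mul_le_mul_right ((m + 2) * (m + 2)) hA]
    have b2 : |(c : ℝ) * X * (∑ i : J, (a j i : ℝ) * (r * z i - W (ev (Sum.inl i))) +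
            ∑ l, (e j l : ℝ) * (r * t l - W (ev (Sum.inr l))))| ≤ ((n : ℝ) - 1) * ((X : ℝ) ^ (A.card + 1) / (X : ℝ) ^ y) := by
      have d1 : |∑ i : J, (a j i : ℝ) * (r * z i - W (ev (Sum.inl i)))| ≤ J.card * (X / (X : ℝ) ^ y) := by
        calc |∑ i : J, (a j i : ℝ) * (r * z i - W (ev (Sum.inl i)))|
            ≤ ∑ i : J, |(a j i : ℝ) * (r * z i - W (ev (Sum.inl i)))| := abs_sum_le_sum_abs _ _
          _ ≤ ∑ i : J, (X / (X : ℝ) ^ y) := by
              apply sum_le_sum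
              intro i _
              rw [abs_mul, div_eq_mul_one_div]
              apply mul_le_mul _ (hWJ i) (abs_nonneg _) hXr.le
              rw [← Int.cast_abs]
              exact_mod_cast ha j hj i
          _ = J.card * (X / (X : ℝ) ^ y) := by simp
      have d2 : |∑ l, (e j l : ℝ) * (r * t l - W (ev (Sum.inr l)))| ≤ v * (X / (X : ℝ) ^ y) := by
        calc |∑ l, (e j l : ℝ) * (r * t l - W (ev (Sum.inr l)))|
            ≤ ∑ l, |(e j l : ℝ) * (r * t l - W (ev (Sum.inr l)))| := abs_sum_le_sum_abs _ _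
          _ ≤ ∑ l : Fin v, (X / (X : ℝ) ^ y) := by
              apply sum_le_sum
              intro l _
              rw [abs_mul, div_eq_mul_one_div]
              apply mul_le_mul _ (hWT l) (abs_nonneg _) hXr.le
              rw [← Int.cast_abs]
              exact_mod_cast he j hj l
          _ = v * (X / (X : ℝ) ^ y) := by simp
      have hJv : ((J.card : ℝ) + v) ≤ (n : ℝ) - 1 := by
        have : ((J.card + v + 1 : ℕ) : ℝ) ≤ n := by exact_mod_cast hJn
        push_cast at this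
        linarith
      rw [abs_mul]
      calc |(c : ℝ) * X| * |∑ i : J, (a j i : ℝ) * (r * z i - W (ev (Sum.inl i))) +
            ∑ l, (e j l : ℝ) * (r * t l - W (ev (Sum.inr l)))|
          ≤ (X : ℝ) ^ A.card * (((n : ℝ) - 1) * (X / (X : ℝ) ^ y)) := by
            apply mul_le_mul hcX _ (abs_nonneg _) (by positivity)
            refine (abs_add_le _ _).trans ?_
            have hp : (0 : ℝ) ≤ X / (X : ℝ) ^ y := by positivity
            nlinarith
        _ = _ := by ring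
    refine size (n := n) (X := X) (M := A.card) (q := q) (by omega) hXn (abs_nonneg _) ?_ (by omega) (by rw [← hy]; exact hqle)
    rw [← hy]
    refine (abs_sub _ _).trans ?_
    calc _ ≤ (X : ℝ) ^ (A.card + 1) / (X : ℝ) ^ y + ((n : ℝ) - 1) * ((X : ℝ) ^ (A.card + 1) / (X : ℝ) ^ y) :=
          add_le_add b1 b2
      _ = _ := by ring
  -- contradiction
  have h1 := H q (by omega)
  have h2 : {j : ℕ | j ∈ A ∧ ∀ p : ℤ, (q : ℝ) ^ (-(1 / (n : ℝ))) ≤ |(q : ℝ) * z j - p|} ⊆ ((U ∪ J : Finset ℕ) : Set ℕ) := by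
    rintro j ⟨g1, g2⟩
    by_contra hj
    have hjB : j ∈ B := by
      rw [hB, mem_sdiff]
      exact ⟨g1, fun h => hj (by exact_mod_cast h)⟩
    obtain ⟨p, hp⟩ := happ j hjB
    exact absurd hp (not_lt.2 (g2 p))
  have h3 := Set.ncard_le_ncard h2 (U ∪ J).finite_toSet
  rw [Set.ncard_coe_finset] at h3
  omega

/-- greedy choice of one set -/
lemma one {A : Finset ℕ} {P : Finset ℕ → Prop} (h0 : P ∅) {S N : ℕ} (U : Finset ℕ) (hU : U.card + S ≤ N)
    (h : ∀ J U : Finset ℕ, J ⊆ A → P J → J.card < S → (U ∪ J).card < N → ∃ j ∈ A, j ∉ U ∧ j ∉ J ∧ P (insert j J)) :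
    ∀ r ≤ S, ∃ J : Finset ℕ, J ⊆ A ∧ J.card = r ∧ Disjoint U J ∧ P J := by
  classical
  intro r
  induction r with
  | zero => intro _; exact ⟨∅, by simp, by simp, by simp, h0⟩
  | succ r ih =>
    intro hr
    obtain ⟨J, hJA, hJc, hJU, hJP⟩ := ih (by omega)
    obtain ⟨j, hjA, hjU, hjJ, hP⟩ := h J U hJA hJP (by omega) (lt_of_le_of_lt (card_union_le _ _) (by omega))
    refine ⟨insert j J, insert_subset hjA hJA, by rw [card_insert_of_notMem hjJ, hJc], ?_, hP⟩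
    rw [disjoint_insert_right]
    exact ⟨hjU, hJU⟩

/-- greedy choice of `K` disjoint sets -/
lemma many {A : Finset ℕ} {P : Finset ℕ → Prop} (h0 : P ∅) {S K : ℕ}
    (h : ∀ J U : Finset ℕ, J ⊆ A → P J → J.card < S → (U ∪ J).card < K * S →
      ∃ j ∈ A, j ∉ U ∧ j ∉ J ∧ P (insert j J)) :
    ∃ J : Fin K → Finset ℕ, (∀ i i', i ≠ i' → Disjoint (J i) (J i')) ∧ ∀ i, J i ⊆ A ∧ (J i).card = S ∧ P (J i) := by
  classical
  have key : ∀ k : ℕ, k ≤ K → ∃ J : ℕ → Finset ℕ, (∀ i < k, ∀ i' < k, i ≠ i' → Disjoint (J i) (J i')) ∧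
      ∀ i < k, J i ⊆ A ∧ (J i).card = S ∧ P (J i) := by
    intro k
    induction k with
    | zero => intro _; exact ⟨fun _ => ∅, by simp, by simp⟩
    | succ k ih =>
      intro hk
      obtain ⟨J, hJd, hJ⟩ := ih (by omega)
      have hT : ((Finset.range k).biUnion J).card ≤ k * S := by
        refine Finset.card_biUnion_le.trans ?_
        calc ∑ i ∈ Finset.range k, (J i).card ≤ ∑ i ∈ Finset.range k, S :=
              Finset.sum_le_sum fun i hi => (hJ i (Finset.mem_range.1 hi)).2.1.le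
          _ = k * S := by simp
      have hN : ((Finset.range k).biUnion J).card + S ≤ K * S := by
        have : (k + 1) * S ≤ K * S := Nat.mul_le_mul_right S hk
        have e : (k + 1) * S = k * S + S := by ring
        omega
      obtain ⟨J', h1, h2, h3, h4⟩ := one (P := P) h0 (U := (Finset.range k).biUnion J) hN h S le_rfl
      refine ⟨fun i => if i = k then J' else J i, ?_, ?_⟩
      · intro i hi i' hi' hne
        by_cases hik : i = k
        · have hik' : i' ≠ k := fun h => hne (hik.trans h.symm)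
          simp only [hik, if_true, hik', if_false]
          have : J i' ⊆ (Finset.range k).biUnion J :=
            Finset.subset_biUnion_of_mem J (Finset.mem_range.2 (by omega))
          exact (Finset.disjoint_of_subset_left this h3).symm
        · by_cases hik' : i' = k
          · simp only [hik', if_true, hik, if_false]
            have : J i ⊆ (Finset.range k).biUnion J :=
              Finset.subset_biUnion_of_mem J (Finset.mem_range.2 (by omega))
            exact Finset.disjoint_of_subset_left this h3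
          · simp only [hik, hik', if_false]
            exact hJd i (by omega) i' (by omega) hne
      · intro i hi
        by_cases hik : i = k
        · simp only [hik, if_true]
          exact ⟨h1, h2, h4⟩
        · simp only [hik, if_false]
          exact hJ i (by omega)
  obtain ⟨J, hJd, hJ⟩ := key K le_rfl
  refine ⟨fun i => J i, fun i i' hne => hJd i i.2 i' i'.2 (fun h => hne (Fin.ext h)), fun i => hJ i i.2⟩

end Pool.Agent.K1H98.NR
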